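import Mathlib
import Pool.Agent.H.MP_6e75db_lc.A

set_option autoImplicit false

namespace Pool.Agent.H.MP_807794_lc

open Set Filter Function Cardinal Order Pool.Agent.H.MP_77d395_lc Pool.Agent.H.MP_6e75db_lc

/-- ladder systems on the countable limit ordinals -/
def Lad (C : I → Set I) : Prop := ∀ α, IsSuccLimit α →
  C α ⊆ Iio α ∧ (∀ β < α, ∃ ξ ∈ C α, β ≤ ξ) ∧ ∀ ξ ∈ C α, (C α ∩ Iio ξ).Finite

/-- `φ` on the downward closed set `S` uniformizes the colouring that is constantly `f α` on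
`C α` -/
def Un {T : Type} [PartialOrder T] (h : T → I) (C : I → Set I) (f : I → ℕ) (S : Set T)
    (φ : T → ℕ) : Prop := IsLowerSet S ∧ ∀ s ∈ S, IsSuccLimit (h s) →
      {ξ ∈ C (h s) | ∃ u < s, h u = ξ ∧ φ u ≠ f (h s)}.Finite

theorem cf : cof I ≠ ℵ₀ := by
  simp [I, aleph0_lt_aleph_one.ne']

theorem wd (h : 𝔠 < (2 : Cardinal.{0}) ^ ℵ₁) (b : (I → ℕ → Bool) → I → ℕ → Bool)
    (L : (I → ℕ → Bool) → Set I) (hL : ∀ a, IsClub (L a)) :
    ¬ ∀ a a' δ, δ ∈ L a → δ ∈ L a' → (∀ β < δ, b a β = b a' β) → a δ = a' δ := fun H => by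
  obtain ⟨c1⟩ := (le_def ((ℕ → Bool) × (ℕ → Bool) × Prop) (ℕ → Bool)).1 (by simp)
  have ac : ℵ₁ * 𝔠 ≤ (𝔠 : Cardinal.{0}) := mul_le_of_le aleph0_le_continuum aleph_one_le_continuum le_rfl
  obtain ⟨c2⟩ := (le_def (I × (ℕ → ℕ → Bool)) (ℕ → Bool)).1 (by simpa using ac)
  choose η hη using fun a => countable_iff_exists_subset_range.1 (cI a)
  have : ∀ (C : {C : Set I // IsClub C}) δ, ∃ γ ∈ C.1, δ < γ := fun C δ =>
    let ⟨a, ha⟩ := unc (cI δ); let ⟨c, c1, c2⟩ := C.2.2 a; ⟨c, c1, (not_le.1 ha).trans_le c2⟩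
  choose nx n1 n2 using this
  let Y := (I → ℕ → Bool) × {C : Set I // IsClub C}
  let A : Y → I → ℕ → Bool := fun y δ => c2 (nx y.2 δ, fun n => y.1 (η (nx y.2 δ) n))
  let st : Y → Y := fun y => (fun β => c1 (y.1 β, b (A y) β, β ∈ y.2.1 ∩ L (A y)),
    ⟨y.2.1 ∩ L (A y), y.2.2.inter cf (hL _)⟩)
  let s : (I → ℕ → Bool) → ℕ → Y := fun a n => st^[n] (a, ⟨_, .univ⟩)
  have e : ∀ a n, s a (n + 1) = st (s a n) := fun a n => iterate_succ_apply' _ _ _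
  choose d hd using fun a => (IsClub.iInter_of_countable cf fun n => (s a n).2.2).nonempty
  have e1 : ∀ a a' β n, (s a (n + 1)).1 β = (s a' (n + 1)).1 β → (s a n).1 β = (s a' n).1 β ∧
      b (A (s a n)) β = b (A (s a' n)) β ∧ (β ∈ (s a (n + 1)).2.1 ↔ β ∈ (s a' (n + 1)).2.1) :=
    fun a a' β n h => by
      rw [e, e] at h ⊢
      exact let ⟨p, q⟩ := Prod.mk.inj (c1.injective h); ⟨p, (Prod.mk.inj q).1,
        iff_of_eq (Prod.mk.inj q).2⟩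
  have e2 : ∀ a, Antitone fun n => (s a n).2.1 := fun a =>
    antitone_nat_of_succ_le fun n => e a n ▸ inter_subset_left
  refine h.not_ge (le_trans (b := #(I → ℕ → Bool)) (by
    simpa [← power_def] using power_le_power_right (c := ℵ₁) ((natCast_le_aleph0 (n := 2)).trans
      aleph0_le_continuum)) ((mk_le_of_injective (f := fun a => (d a, fun n m =>
    (s a n).1 (η (d a) m))) fun a a' c => ?_).trans (by simpa using ac)))
  obtain ⟨c3, c4⟩ := Prod.mk.inj c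
  by_contra ne
  obtain ⟨γ, ⟨n, g1⟩, g2⟩ := wellFounded_lt.has_min {γ | ∃ n, (s a n).1 γ ≠ (s a' n).1 γ}
    ((ne_iff.1 ne).imp fun γ h => ⟨0, h⟩)
  replace g2 : ∀ β < γ, ∀ n, (s a n).1 β = (s a' n).1 β := fun β l n => by_contra fun c =>
    g2 β ⟨n, c⟩ l
  have g3 : d a ≤ γ := (not_le.1 fun l => by
    obtain ⟨m, rfl⟩ := hη _ l
    exact g1 ((congrFun (congrFun c4 n) m).trans (by rw [c3]))).le
  have : ∀ n, ∃ δ, IsGreatest {δ ≤ γ | δ ∈ (s a n).2.1 ∧ δ ∈ (s a' n).2.1} δ := fun n => by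
    obtain ⟨δ, d1, d2⟩ := wellFounded_lt.has_min (upperBounds {δ ≤ γ | δ ∈ (s a n).2.1 ∧
      δ ∈ (s a' n).2.1}) ⟨γ, fun _ h => h.1⟩
    have l : IsLUB _ δ := ⟨d1, fun x h => not_lt.1 (d2 x h)⟩
    have k := Set.nonempty_of_mem (s := {δ ≤ γ | δ ∈ (s a n).2.1 ∧ δ ∈ (s a' n).2.1})
      ⟨g3, mem_iInter.1 (hd a) n, c3 ▸ mem_iInter.1 (hd a') n⟩
    exact ⟨δ, ⟨l.2 fun _ h => h.1, (s a n).2.2.isLUB_mem (fun _ h => h.2.1) k l,
      (s a' n).2.2.isLUB_mem (fun _ h => h.2.2) k l⟩, d1⟩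
  choose δ d1 d2 using this
  obtain ⟨_, ⟨k, rfl⟩, hk⟩ := wellFounded_lt.has_min (range δ) (range_nonempty _)
  have k1 : ∀ m ≥ k, δ m = δ k := fun m l => le_antisymm (d2 k ⟨(d1 m).1, e2 a l (d1 m).2.1,
    e2 a' l (d1 m).2.2⟩) (not_lt.1 (hk _ ⟨m, rfl⟩))
  have k2 : ∀ m, (s a (n + m)).1 γ ≠ (s a' (n + m)).1 γ := fun m => by
    induction m with
    | zero => exact g1
    | succ m ih => exact fun c => ih (e1 a a' γ _ c).1
  obtain ⟨N, N1, N2⟩ : ∃ N, k ≤ N + 1 ∧ (s a (N + 1)).1 γ ≠ (s a' (N + 1)).1 γ :=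
    ⟨n + k, by omega, k2 (k + 1)⟩
  obtain ⟨m1, m2, m3⟩ := d1 (N + 2)
  obtain ⟨t1, t2⟩ := Prod.mk.inj (c2.injective (H (A (s a (N + 1))) (A (s a' (N + 1))) _
    (e a _ ▸ m2 :).2 (e a' _ ▸ m3 :).2 fun β l => (e1 a a' β _ (g2 β (l.trans_le m1) _)).2.1))
  obtain ⟨m, hm⟩ := hη _ (show γ ≤ nx (s a (N + 1)).2 (δ (N + 2)) from not_lt.1 fun l =>
    (n2 _ _).not_ge ((d2 (N + 1) ⟨l.le, n1 _ _, (e1 a a' _ N (g2 _ l _)).2.2.1 (n1 _ _)⟩).trans_eq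
      ((k1 _ N1).trans (k1 _ (by omega)).symm)))
  exact N2 (hm ▸ (congrFun t2 m).trans (by rw [t1]))

theorem lm : IsClub {δ : I | IsSuccLimit δ} := by
  refine ⟨fun d h n _ a l => by_contra fun c => c (l.isSuccLimit_of_notMem n fun g => c (h g)),
    fun a => ?_⟩
  choose G hG using fun γ => bd ((countable_singleton a).insert γ)
  obtain ⟨δ, d1, d2⟩ := clo G
  exact ⟨δ, ⟨d1.not_isMin, fun γ c => c.2 (hG γ γ (.inl rfl)) (d2 γ c.1)⟩,
    ((hG o a (.inr rfl)).trans (d2 o d1)).le⟩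

theorem main (hc : 𝔠 < (2 : Cardinal.{0}) ^ ℵ₁) {T : Type} [PartialOrder T] {h : T → I} (ht : Tr T h)
    (hl : ∀ a, (h ⁻¹' {a}).Countable) {C : I → Set I} (hC : Lad C)
    (hU : ∀ f, ∃ S φ, (∀ a, ∃ s ∈ S, a ≤ h s) ∧ Un h C f S φ) :
    ∃ A : Set T, IsAntichain (· ≤ ·) A ∧ IsStationary (h '' A) := by
  by_contra! c
  choose S φ s1 s2 s3 using hU
  choose L l1 l2 using fun S : Set T => not_isStationary_iff.1 (c {t | t ∉ S ∧ Iio t ⊆ S}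
    fun s a t b n l => a.1 (b.2 (l.lt_of_ne n)))
  have : ∀ β, Nonempty ((ℕ → h ⁻¹' {β} → Prop × ℕ) ↪ ℕ → Bool) := fun β => (le_def _ _).1 (by
    have := (hl β).to_subtype
    simp only [← power_def, ← power_mul]
    exact (power_le_power_left (by simp [aleph0_ne_zero]) (mul_le_of_le le_rfl mk_le_aleph0 mk_le_aleph0)).trans
      (by simp))
  have := fun β => Classical.choice (this β)
  let F : (I → ℕ → Bool) → ℕ → I → ℕ := fun a n δ => (a δ n).toNat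
  refine wd hc (fun a β => this β fun n t => (t.1 ∈ S (F a n), φ (F a n) t)) (fun a =>
    {δ | IsSuccLimit δ} ∩ ⋂ n, L (S (F a n))) (fun a => lm.inter cf (.iInter_of_countable cf
      fun n => l1 _)) fun a a' δ d d' e => funext fun n => ?_
  have e : ∀ u, h u < δ → (u ∈ S (F a n) ↔ u ∈ S (F a' n)) ∧ φ (F a n) u = φ (F a' n) u :=
    fun u l => by simpa using congrFun (congrFun ((this _).injective (e _ l)) n) ⟨u, rfl⟩
  obtain ⟨t, t1, rfl⟩ : ∃ t ∈ S (F a n), h t = δ := by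
    obtain ⟨s, a1, a2⟩ := s1 (F a n) δ
    exact a2.eq_or_lt.elim (fun e => ⟨s, a1, e.symm⟩) fun l => (ht.2.2 s δ l).imp fun t g =>
      ⟨s2 _ g.1.le a1, g.2⟩
  have t2 : t ∈ S (F a' n) := by_contra fun g => disjoint_left.1 (l2 _) ⟨t, ⟨g, fun u l =>
    (e u (ht.1 l)).1.1 (s2 _ l.le t1)⟩, rfl⟩ (mem_iInter.1 d'.2 n)
  obtain ⟨c1, c2, -⟩ := hC _ d.1
  have : (C (h t)).Infinite := fun f => by
    obtain ⟨a, a1, a2⟩ := exists_max_image _ id f (let ⟨b, c⟩ := d.1.nonempty_Iio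
      (c2 b c).imp fun _ c => c.1)
    obtain ⟨b, b1, b2⟩ := (not_covBy_iff (c1 a1)).1 (d.1.2 _)
    obtain ⟨c, c3, c4⟩ := c2 b b2
    exact (a2 c c3).not_gt (b1.trans_le c4)
  obtain ⟨ξ, x1, x2⟩ := this.exists_notMem_finite ((s3 _ t t1 d.1).union (s3 _ t t2 d.1))
  obtain ⟨u, u1, u2⟩ := ht.2.2 t ξ (c1 x1)
  simp only [mem_union, mem_ofPred_eq, not_or, not_and, not_exists, not_not] at x2
  exact (by decide : Injective Bool.toNat) ((x2.1 x1 u u1 u2).symm.trans ((e u (ht.1 u1)).2.trans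
    (x2.2 x1 u u1 u2)))

end Pool.Agent.H.MP_807794_lc
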